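import Pool.Agent.Helper56.NL.Stm

/-! Statements of further packages. -/

set_option autoImplicit false

namespace Pool.Agent.Helper56.NL

open Pool.Agent.Helper35.EM Pool.Agent.Helper56.SA Pool.Agent.Helper56.EM Module Submodule Set

/-- Package DET (Valiant, Roy): every polynomial is the determinant of a matrix whose entries are polynomials
of degree at most one. (Induction: `f = u * T⁻¹ * v` with `det T = 1` and entries of degree at most one;
sums by block diagonal matrices; `f * X i` by `T' = fromBlocks T (-v) 0 1`, `u' = (u, 0)`, `v' = (0, X i)`;
`Matrix.det_fromBlocks₁₁` at the end.) -/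
def S_DET : Prop := ∀ (k : Type) [Field k] (n : ℕ) (f : MvPolynomial (Fin n) k),
  ∃ (N : ℕ) (A : Matrix (Fin N) (Fin N) (MvPolynomial (Fin n) k)),
    (∀ i j, (A i j).totalDegree ≤ 1) ∧ A.det = f

/-- Package ROY (Roy 1995), from `S_DET`: in an exponential field with Baker's theorem, the constant one in
the theorem on the structural rank gives independence in all degrees. (If `eval u f = 0`, take the matrix
`A` of `f`, a point `y` with algebraic coordinates and `eval y f ≠ 0` (`MvPolynomial.funext`) and an
algebraic-linear map with `1 ↦ 1`, `u i ↦ y i`, by Baker.) -/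
def S_ROY : Prop := ∀ F : ExpField, IndependentInDegree F 1 → StructuralRank F 1 →
  ∀ D : ℕ, IndependentInDegree F D

end Pool.Agent.Helper56.NL
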