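import Pool.Agent.Helper56.NL.Ext
import Pool.Agent.Helper35.EM.ConjCases
import Pool.Agent.Helper56.NL.Stm2
import Pool.Agent.Helper56.SA.Hr

/-! The field. -/

set_option autoImplicit false

namespace Pool.Agent.Helper56.NL

open Pool.Agent.Helper35.EM Pool.Agent.Helper56.SA Pool.Agent.Helper56.EM Module Submodule Set
  ComplexConjugate

theorem g_pos (D : ℕ) (k : ℕ) : 1 ≤ g D k := by
  induction k with
  | zero => exact le_rfl
  | succ k ih =>
    rw [g]
    exact Nat.one_le_iff_ne_zero.2 (mul_ne_zero (by omega) (pow_ne_zero _ (by omega)))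

theorem Bs.fst_mem {D : ℕ} {p : ℝ} {P0 : Submodule ℚ (ℂ × ℂ)} (h : Bs D p P0) {q : ℂ × ℂ}
    (hq : q ∈ P0) : q.1 ∈ M.closure {(p : ℂ)} := by
  have h1 := h.form q hq
  generalize q.1 = x at h1
  induction h1 using Submodule.span_induction with
  | mem x hx =>
    obtain ⟨k, rfl⟩ := hx
    exact cl_pow _ (cl_self rfl)
  | zero => exact cl_zero _
  | add x y _ _ hx hy => exact cl_add hx hy
  | smul c x _ hx => exact smul_cl c hx

/-- no nonzero algebraic number is a combination of the powers -/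
theorem alg_zero {D : ℕ} {p x : ℂ} (hp : p ∉ M.closure ∅)
    (hx : x ∈ span kk (range fun k => p ^ g D k)) (hx' : x ∈ M.closure ∅) : x = 0 := by
  have h1 : ∃ P : Polynomial kk, P.coeff 0 = 0 ∧ Polynomial.aeval p P = x := by
    clear hx'
    induction hx using Submodule.span_induction with
    | mem x hx =>
      obtain ⟨k, rfl⟩ := hx
      refine ⟨Polynomial.X ^ g D k, ?_, by simp⟩
      rw [Polynomial.coeff_X_pow, if_neg]
      have := g_pos D k
      omega
    | zero => exact ⟨0, by simp, by simp⟩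
    | add x y _ _ hx hy =>
      obtain ⟨P, h1, h2⟩ := hx
      obtain ⟨Q, h3, h4⟩ := hy
      exact ⟨P + Q, by simp [h1, h3], by simp [h2, h4]⟩
    | smul c x _ hx =>
      obtain ⟨P, h1, h2⟩ := hx
      exact ⟨c • P, by simp [h1], by simp [h2]⟩
  obtain ⟨P, h1, h2⟩ := h1
  set x' : kk := ⟨x, kk_mem.2 hx'⟩ with hx'
  have h3 : Polynomial.aeval p (P - Polynomial.C x') = 0 := by
    rw [map_sub, h2, Polynomial.aeval_C]
    exact sub_self x
  have h4 : P - Polynomial.C x' = 0 := by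
    by_contra h5
    apply hp
    rw [mem_cl]
    apply cl_idem
    exact ⟨_, h5, h3⟩
  have h5 := congrArg (fun Q => Polynomial.coeff Q 0) h4
  simp only [Polynomial.coeff_sub, h1, Polynomial.coeff_C_zero, Polynomial.coeff_zero, zero_sub,
    neg_eq_zero] at h5
  exact congrArg Subtype.val h5

/-- the base with `E 1 = e` -/
theorem Bs.stage {D : ℕ} {p : ℝ} {P0 : Submodule ℚ (ℂ × ℂ)} (h : Bs D p P0)
    (hpt : (p : ℂ) ∉ M.closure ∅) {t : ℕ → ℂ} (ht : FreeR t) (h0 : t 0 = (p : ℂ)) {e : ℝ}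
    (he : 0 < e) (h1 : t 1 = (e : ℂ)) :
    t '' Iio 1 = {(p : ℂ)} ∧ ∃ P1 : Submodule ℚ (ℂ × ℂ), ExtI t 1 P0 P0 P1 2 ∧
      ((1 : ℂ), ((Real.log e : ℝ) : ℂ)) ∈ P1 := by
  have hI1 : t '' Iio 1 = {(p : ℂ)} := by
    ext x
    constructor
    · rintro ⟨n, hn, rfl⟩
      have : n = 0 := by
        have : n < 1 := hn
        omega
      subst this
      exact h0
    · rintro rfl
      exact ⟨0, Nat.zero_lt_one, h0⟩
  refine ⟨hI1, ?_⟩
  have hs : SI P0 (t '' Iio 1) := by
    rw [hI1]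
    exact ⟨fun q hq => h.fst_mem hq, fun q hq => cl_empty_le (h.alg q hq), h.inj1, h.inj2⟩
  have hrefl : IneqR (t '' Iio 1) P0 P0 := by
    intro V hV _
    rw [inf_eq_left.2 hV, add_comm]
    gcongr
    exact M.eRk_mono subset_union_left
  have hexp : Complex.exp ((Real.log e : ℝ) : ℂ) = t 1 := by
    rw [exp_rlog he, h1]
  have hnot : ¬ ∃ z, ((1 : ℂ), z) ∈ P0 := by
    rintro ⟨z, hz⟩
    exact one_ne_zero (alg_zero hpt (h.form _ hz) (cl_one _))
  obtain ⟨g1, g2⟩ := forthGI (image_mono t (show 1 ≤ 2 by norm_num)) le_rfl le_rfl hs hrefl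
    (x := 1) (w := ((Real.log e : ℝ) : ℂ)) (cl_one _) hnot
    (by rw [hexp]; exact cl_self ⟨1, by norm_num, rfl⟩)
    (by rw [hexp]; exact ht.free 1)
  refine ⟨_, ⟨le_sup_left, g1, g2, h.cs.sup (Or.inl ?_), by norm_num⟩,
    Submodule.mem_sup_right (Submodule.mem_span_singleton_self _)⟩
  ext1
  · exact map_one _
  · exact Complex.conj_ofReal _

theorem restrict {A B : IntermediateField ℚ ℂ} (h : A ≤ B) {n : ℕ} {f : Fin n → ℂ}
    (hf : AlgebraicIndependent B f) : AlgebraicIndependent A f := by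
  let : Algebra A B := (IntermediateField.inclusion h).toRingHom.toAlgebra
  have : IsScalarTower A B ℂ := IsScalarTower.of_algebraMap_eq fun x => rfl
  have hinj : Function.Injective (algebraMap A B) := (IntermediateField.inclusion h).injective
  exact hf.restrictScalars hinj

/-- the field of a base -/
theorem field (hSCH : S_SCH) (hLW : S_LW) (hRANK : S_RANK) (hFOUR : S_FOUR) (hDEG : S_DEG)
    {D : ℕ} (hD : 3 ≤ D) {p : ℝ} (hp0 : 0 < p) (hpt : (p : ℂ) ∉ M.closure ∅)
    {P0 : Submodule ℚ (ℂ × ℂ)} (hB : Bs D p P0) {K : IntermediateField ℚ ℂ}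
    (hKcl : ∀ z : ℂ, IsAlgebraic K.toSubfield z → z ∈ K) (hKk : ∀ z ∈ M.closure ∅, z ∈ K)
    (hconjK : ∀ x ∈ K, conj x ∈ K) (hpK : (p : ℂ) ∈ K) (E : K → K) (lam : K →ₗ[ℚ] ℂ)
    (hE : ∀ x, (E x : ℂ) = Complex.exp (lam x)) (hsurj : ∀ y, y ≠ 0 → ∃ x, E x = y)
    (hker : ∀ x, E x = 1 ↔ ∃ n : ℤ, (x : ℂ) = n * (2 * Complex.I * (p : ℂ)))
    {P1 : Submodule ℚ (ℂ × ℂ)} (h01 : P0 ≤ P1)
    (hP : ∀ q ∈ P1, ∃ x : K, (x : ℂ) = q.1 ∧ lam x = q.2)
    (hrk : ∀ V : Submodule ℚ K, FiniteDimensional ℚ V →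
        (finrank ℚ V : ℕ∞) + M.eRk {(p : ℂ)} ≤ M.eRk ({(p : ℂ)} ∪ co (V.map (gr lam))) +
          (finrank ℚ (V.map (gr lam) ⊓ P0 : Submodule ℚ (ℂ × ℂ)) : ℕ∞))
    (hconj : ∀ x y : K, (y : ℂ) = conj (x : ℂ) → lam y = conj (lam x)) :
    ∃ F : ExpField, F.p = p ∧ (∀ q ∈ P1, q.1 ∈ F.K ∧ F.E q.1 = Complex.exp q.2) ∧
      LindemannWeierstrass F ∧ IndependentInDegree F D ∧ StrongFourExponentials F ∧
        StructuralRank F (1 - 1 / D) ∧ SchanuelModuloLogs F ∧ AllLogsInPi F := by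
  classical
  have hP0 : ∀ q ∈ P0, ∃ x : K, (x : ℂ) = q.1 ∧ lam x = q.2 := fun q hq => hP q (h01 hq)
  have hlaminj : ∀ x y : K, lam x = lam y → x = y := by
    intro x y hxy
    have h1 : lam (x - y) = 0 := by rw [map_sub, hxy, sub_self]
    have h2 : E (x - y) = 1 := by
      apply Subtype.ext
      rw [hE, h1, Complex.exp_zero]
      rfl
    obtain ⟨n, hn⟩ := (hker _).1 h2
    obtain ⟨τ, hτ1, hτ2⟩ := hP0 _ hB.kap
    have h3 : x - y = (n : ℚ) • τ := by
      apply Subtype.ext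
      rw [hn]
      show _ = (((n : ℚ) • τ : K) : ℂ)
      have : (((n : ℚ) • τ : K) : ℂ) = (n : ℂ) * (τ : ℂ) := by
        have e0 : (((n : ℚ) • τ : K) : ℂ) = (n : ℚ) • (τ : ℂ) := rfl
        rw [e0, Rat.smul_def]
        simp
      rw [this, hτ1]
    rw [h3, map_smul, hτ2, Rat.smul_def] at h1
    have h4 : (n : ℂ) = 0 := by
      rcases mul_eq_zero.1 h1 with h | h
      · exact_mod_cast h
      · exfalso
        have := Complex.two_pi_I_ne_zero
        exact this h
    have h5 : n = 0 := by exact_mod_cast h4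
    rw [h5] at h3
    simp only [Int.cast_zero, zero_smul] at h3
    exact sub_eq_zero.1 h3
  let EE : ℂ → ℂ := fun x => if hx : x ∈ K then Complex.exp (lam ⟨x, hx⟩) else 0
  have hEE : ∀ x : K, EE x = Complex.exp (lam x) := fun x => by
    simp only [EE]
    rw [dif_pos x.2]
  have hEP : ∀ q ∈ P1, EE q.1 = Complex.exp q.2 := by
    intro q hq
    obtain ⟨x, h1, h2⟩ := hP q hq
    rw [← h1, hEE, h2]
  have hfst : ∀ q ∈ P1, q.1 ∈ K := by
    intro q hq
    obtain ⟨x, h1, h2⟩ := hP q hq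
    rw [← h1]; exact x.2
  have hexpK : ∀ x : K, Complex.exp (lam x) ∈ K := fun x => by rw [← hE]; exact (E x).2
  let F : ExpField :=
    { K := K.toSubfield
      E := EE
      p := p
      closed := hKcl
      conj_mem := hconjK
      E_mem := fun x hx => by
        show EE x ∈ K
        rw [hEE ⟨x, hx⟩]; exact hexpK _
      E_add := fun x hx y hy => by
        have h1 := hEE (⟨x, hx⟩ + ⟨y, hy⟩)
        rw [map_add, Complex.exp_add, ← hEE, ← hEE] at h1
        exact h1
      E_surj := fun y hy hy0 => by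
        obtain ⟨x, hx⟩ := hsurj ⟨y, hy⟩ (fun h0 => hy0 (congrArg Subtype.val h0))
        refine ⟨x, x.2, ?_⟩
        rw [hEE, ← hE, hx]
      E_conj := fun x hx => by
        have h1 := hconj ⟨x, hx⟩ ⟨conj x, hconjK x hx⟩ rfl
        have h2 := hEE ⟨conj x, hconjK x hx⟩
        rw [h1, Complex.exp_conj, ← hEE] at h2
        exact h2
      ker := fun x hx => by
        have h1 := hker ⟨x, hx⟩
        have h2 : EE x = 1 ↔ E ⟨x, hx⟩ = 1 := by
          rw [hEE ⟨x, hx⟩, ← hE]
          constructor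
          · intro h0; exact Subtype.ext h0
          · intro h0; rw [h0]; rfl
        rw [h2, h1]
        refine exists_congr fun n => ?_
        show x = n * (2 * Complex.I * p) ↔ _
        rw [show (n : ℂ) * (2 * Complex.I * p) = 2 * p * Complex.I * n by ring]
      p_mem := hpK
      p_pos := hp0 }
  -- logarithms of algebraic numbers are first coordinates of `P0`
  have hlog : ∀ u : ℂ, IsLog F u → ∃ w, (u, w) ∈ P0 := by
    intro u hu
    have h1 : Complex.exp (lam ⟨u, hu.1⟩) ∈ M.closure ∅ := by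
      rw [← hEE]; exact mem_cl_empty.2 hu.2
    obtain ⟨x, hx⟩ := hB.all _ h1
    obtain ⟨y, hy1, hy2⟩ := hP0 _ hx
    have h2 : y = ⟨u, hu.1⟩ := hlaminj _ _ hy2
    refine ⟨lam ⟨u, hu.1⟩, ?_⟩
    have h3 : u = x := by
      have := congrArg (fun y : K => (y : ℂ)) h2
      exact this.symm.trans hy1
    have h4 : ((u : ℂ), lam ⟨u, hu.1⟩) = (x, lam ⟨u, hu.1⟩) := Prod.ext h3 rfl
    rw [h4]
    exact hx
  have hlog' : ∀ x : K, Complex.exp (lam x) ∈ M.closure ∅ ↔ IsLog F x := by
    intro x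
    rw [← hEE, mem_cl_empty]
    exact ⟨fun h => ⟨x.2, h⟩, fun h => h.2⟩
  -- linear forms
  set W : Submodule kk ℂ := span kk (insert 1 (range fun k => (p : ℂ) ^ g D k)) with hW
  have hform : ∀ z : ℂ, LogForm F z → z ∈ W := by
    rintro z ⟨n, u, c₀, c, hu, h0, hc, rfl⟩
    refine Submodule.add_mem _ ?_ (Submodule.sum_mem _ fun i _ => ?_)
    · have : c₀ = (⟨c₀, kk_mem.2 (mem_cl_empty.2 h0)⟩ : kk) • (1 : ℂ) := by
        rw [kk_smul, mul_one]
      rw [this]
      exact Submodule.smul_mem _ _ (subset_span (mem_insert _ _))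
    · have : c i * u i = (⟨c i, kk_mem.2 (mem_cl_empty.2 (hc i))⟩ : kk) • u i := by
        rw [kk_smul]
      rw [this]
      obtain ⟨w, hw⟩ := hlog _ (hu i)
      exact Submodule.smul_mem _ _ (span_mono (subset_insert _ _) (hB.form _ hw))
  have hrank : ∀ (d l : ℕ) (A : Matrix (Fin d) (Fin l) ℂ) (φ : ℂ →ₗ[kk] kk),
      (∀ i j, A i j ∈ W) →
        D * (A.map fun z => (φ z : ℂ)).rank ≤ D * A.rank + (A.map fun z => (φ z : ℂ)).rank :=
    fun d l A φ hA => hRANK D (by omega) p hpt d l A φ hA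
  have hindep : ∀ {n : ℕ} {x : Fin n → ℂ}, Indep x → LinearIndependent kk x := by
    intro n x hx
    rw [Fintype.linearIndependent_iff]
    intro c hc i
    apply Subtype.ext
    refine hx (fun i => (c i : ℂ)) (fun i => mem_cl_empty.1 (kk_mem.1 (c i).2)) ?_ i
    rw [← hc]
    exact Finset.sum_congr rfl fun i _ => by rw [kk_smul]
  refine ⟨F, rfl, fun q hq => ⟨hfst q hq, hEP q hq⟩, ?_, ?_, ?_, ?_, ?_, ?_⟩
  · -- Lindemann-Weierstrass
    intro n α ha hi
    have hmem : ∀ i, α i ∈ K := fun i => hKk _ (mem_cl_empty.2 (ha i))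
    let α' : Fin n → K := fun i => ⟨α i, hmem i⟩
    have hi' : LinearIndependent ℚ α' := by
      have h1 : α = K.val.toLinearMap ∘ α' := rfl
      rw [h1] at hi
      exact hi.of_comp _
    have h1 := hLW K lam D p P0 hpt hB hP0 hrk n α' (fun i => mem_cl_empty.2 (ha i)) hi'
    have h2 : (fun i => F.E (α i)) = fun i => Complex.exp (lam (α' i)) := by
      funext i; exact hEE (α' i)
    rw [h2]
    exact h1.restrictScalars (FaithfulSMul.algebraMap_injective ℚ (clF {(p : ℂ)}))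
  · -- independence in degree `D`
    intro n u hu hi f hf hf0 hfD
    have h1 : LinearIndependent kk u := hB.ind n u (fun i => hlog _ (hu i)) hi
    have h2 : ∀ i, u i ∈ span kk (range fun k => (p : ℂ) ^ g D k) := fun i => by
      obtain ⟨w, hw⟩ := hlog _ (hu i)
      exact hB.form _ hw
    -- the polynomial over `kk`
    have h3 : f ∈ Set.range (MvPolynomial.map (σ := Fin n) (algebraMap kk ℂ)) := by
      rw [MvPolynomial.mem_range_map_iff_coeffs_subset]
      intro c hc
      obtain ⟨m, -, rfl⟩ := MvPolynomial.mem_coeffs_iff.1 hc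
      exact ⟨⟨f.coeff m, kk_mem.2 (mem_cl_empty.2 (hf m))⟩, rfl⟩
    obtain ⟨f', rfl⟩ := h3
    have hinj : Function.Injective (algebraMap kk ℂ) := (algebraMap kk ℂ).injective
    have h4 := hDEG D p hpt n u h2 h1 f' (by rintro rfl; simp at hf0)
      (by
        have h5 : (MvPolynomial.map (algebraMap kk ℂ) f').totalDegree = f'.totalDegree := by
          simp only [MvPolynomial.totalDegree, MvPolynomial.support_map_of_injective _ hinj]
        rwa [h5] at hfD)
    rw [MvPolynomial.aeval_def] at h4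
    rw [MvPolynomial.eval_map]
    exact h4
  · -- strong four exponentials
    intro x y hx hy
    obtain ⟨i, j, hij⟩ := hFOUR W D hD hrank x y (hindep hx) (hindep hy)
    exact ⟨i, j, fun h => hij (hform _ h)⟩
  · -- structural rank
    intro d l A φ hA hφ
    let ψ : ℂ →ₗ[kk] kk :=
      { toFun := fun x => ⟨φ x, kk_mem.2 (mem_cl_empty.2 (hφ.2.2 x))⟩
        map_add' := fun x y => Subtype.ext (hφ.1 x y)
        map_smul' := fun c x => Subtype.ext (by
          have := hφ.2.1 (c : ℂ) x (mem_cl_empty.1 (kk_mem.1 c.2))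
          rw [kk_smul]
          exact this) }
    have h1 := hrank d l A ψ (fun i j => hform _ (hA i j))
    have h2 : (A.map fun z => (ψ z : ℂ)) = A.map φ := rfl
    rw [h2] at h1
    have h3 : (D : ℝ) * ((A.map φ).rank : ℝ) ≤ D * (A.rank : ℝ) + ((A.map φ).rank : ℝ) := by
      exact_mod_cast h1
    have hD0 : (0 : ℝ) < D := by
      have : 0 < D := by omega
      exact_mod_cast this
    have h4 : (1 - 1 / (D : ℝ)) * ((A.map φ).rank : ℝ) =
        (D * ((A.map φ).rank : ℝ) - ((A.map φ).rank : ℝ)) / D := by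
      field_simp
    rw [h4, div_le_iff₀ hD0]
    linarith
  · -- Schanuel modulo logarithms
    intro n z hz hq
    let z' : Fin n → K := fun i => ⟨z i, hz i⟩
    obtain ⟨f, hf1, hf2⟩ := hSCH K lam D p P0 hpt hB hP0 hrk n z' (by
      intro q h1
      apply hq
      rw [hlog'] at h1
      have e : ((∑ i, q i • z' i : K) : ℂ) = ∑ i, (q i : ℂ) * z i := by
        rw [AddSubmonoidClass.coe_finsetSum]
        exact Finset.sum_congr rfl fun i _ => Rat.smul_def _ _
      rw [e] at h1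
      exact h1)
    refine ⟨f, fun i => ?_, ?_⟩
    · rcases hf1 i with ⟨j, hj⟩ | ⟨j, hj⟩
      · exact Or.inl ⟨j, hj⟩
      · refine Or.inr ⟨j, ?_⟩
        rw [← hj]
        exact hEE (z' j)
    · have hle : IntermediateField.adjoin ℚ {u : ℂ | IsLog F u} ≤ clF {(p : ℂ)} := by
        rw [IntermediateField.adjoin_le_iff]
        intro u hu
        obtain ⟨w, hw⟩ := hlog u hu
        exact mem_cl.1 (hB.fst_mem hw)
      exact restrict hle hf2
  · intro u hu
    obtain ⟨w, hw⟩ := hlog u hu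
    exact hB.poly _ hw

end Pool.Agent.Helper56.NL
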