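import Mathlib

/-!
# Exponential fields and logarithms of algebraic numbers
-/

set_option autoImplicit false

namespace Pool.Agent.Helper56.NL

/-- An exponential field: an algebraically closed subfield `K` of `ℂ`, stable under complex
conjugation, with a surjective homomorphism `E` from the additive to the multiplicative group of `K`
that commutes with the conjugation, and whose kernel is `2 p i ℤ` for a real number `p > 0`, the number
`π` of the field. -/
structure ExpField where
  K : Subfield ℂ
  E : ℂ → ℂ
  p : ℝ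
  closed : ∀ z : ℂ, IsAlgebraic K z → z ∈ K
  conj_mem : ∀ x ∈ K, (starRingEnd ℂ) x ∈ K
  E_mem : ∀ x ∈ K, E x ∈ K
  E_add : ∀ x ∈ K, ∀ y ∈ K, E (x + y) = E x * E y
  E_surj : ∀ y ∈ K, y ≠ 0 → ∃ x ∈ K, E x = y
  E_conj : ∀ x ∈ K, E ((starRingEnd ℂ) x) = (starRingEnd ℂ) (E x)
  ker : ∀ x ∈ K, E x = 1 ↔ ∃ n : ℤ, x = 2 * p * Complex.I * n
  p_mem : (p : ℂ) ∈ K
  p_pos : 0 < p

/-- Lindemann-Weierstrass: for rationally independent algebraic `α i` the `E (α i)` are
algebraically independent. -/
def LindemannWeierstrass (F : ExpField) : Prop :=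
  ∀ (n : ℕ) (α : Fin n → ℂ), (∀ i, IsAlgebraic ℚ (α i)) → LinearIndependent ℚ α →
    AlgebraicIndependent ℚ fun i => F.E (α i)

/-- logarithms of algebraic numbers -/
def IsLog (F : ExpField) (u : ℂ) : Prop := u ∈ F.K ∧ IsAlgebraic ℚ (F.E u)

/-- Rationally independent logarithms of algebraic numbers satisfy no polynomial relation of degree at
most `D` with algebraic coefficients. For `D = 1` this is Baker's theorem. -/
def IndependentInDegree (F : ExpField) (D : ℕ) : Prop :=
  ∀ (n : ℕ) (u : Fin n → ℂ), (∀ i, IsLog F (u i)) → LinearIndependent ℚ u →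
    ∀ f : MvPolynomial (Fin n) ℂ, (∀ m, IsAlgebraic ℚ (f.coeff m)) → f ≠ 0 → f.totalDegree ≤ D →
      MvPolynomial.eval u f ≠ 0

/-- linear combinations of `1` and logarithms of algebraic numbers, with algebraic coefficients -/
def LogForm (F : ExpField) (z : ℂ) : Prop :=
  ∃ (n : ℕ) (u : Fin n → ℂ) (c₀ : ℂ) (c : Fin n → ℂ), (∀ i, IsLog F (u i)) ∧ IsAlgebraic ℚ c₀ ∧
    (∀ i, IsAlgebraic ℚ (c i)) ∧ z = c₀ + ∑ i, c i * u i

/-- linear independence over the field of algebraic numbers -/
def Indep {n : ℕ} (x : Fin n → ℂ) : Prop :=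
  ∀ c : Fin n → ℂ, (∀ i, IsAlgebraic ℚ (c i)) → ∑ i, c i * x i = 0 → ∀ i, c i = 0

/-- The strong four exponentials conjecture: if `x 0, x 1` and `y 0, y 1` are linearly independent over
the algebraic numbers, then one of the four products `x i * y j` is not a linear combination of `1`
and logarithms of algebraic numbers. -/
def StrongFourExponentials (F : ExpField) : Prop :=
  ∀ x y : Fin 2 → ℂ, Indep x → Indep y → ∃ i j, ¬ LogForm F (x i * y j)

/-- linear over the field of algebraic numbers, with algebraic values -/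
def AlgLinear (φ : ℂ → ℂ) : Prop :=
  (∀ x y, φ (x + y) = φ x + φ y) ∧ (∀ c x, IsAlgebraic ℚ c → φ (c * x) = c * φ x) ∧
    ∀ x, IsAlgebraic ℚ (φ x)

/-- The rank of a matrix of linear combinations of `1` and logarithms of algebraic numbers is at least
`c` times its structural rank, which is the largest rank of its images under linear maps with
algebraic values. (`c = 1 / 2` is the theorem of Waldschmidt and Roy.) -/
def StructuralRank (F : ExpField) (c : ℝ) : Prop :=
  ∀ (d l : ℕ) (A : Matrix (Fin d) (Fin l) ℂ) (φ : ℂ → ℂ), (∀ i j, LogForm F (A i j)) →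
    AlgLinear φ → c * ((A.map φ).rank : ℝ) ≤ A.rank

/-- Schanuel's conjecture modulo logarithms: if no nontrivial rational combination of the `z i` is a
logarithm of an algebraic number, then `n` of the numbers `z i`, `E (z i)` are algebraically independent
over the field generated by all logarithms of algebraic numbers. -/
def SchanuelModuloLogs (F : ExpField) : Prop :=
  ∀ (n : ℕ) (z : Fin n → ℂ), (∀ i, z i ∈ F.K) →
    (∀ q : Fin n → ℚ, IsLog F (∑ i, (q i : ℂ) * z i) → q = 0) →
      ∃ f : Fin n → ℂ, (∀ i, f i ∈ Set.range z ∪ Set.range fun j => F.E (z j)) ∧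
        AlgebraicIndependent (IntermediateField.adjoin ℚ {u : ℂ | IsLog F u}) f

/-- `a + b i` with rational `a`, `b` -/
def Gauss (z : ℂ) : Prop := ∃ a b : ℚ, z = a + b * Complex.I

/-- all logarithms of algebraic numbers are polynomials in the number `π` of the field with coefficients in
`ℚ(i)` -/
def AllLogsInPi (F : ExpField) : Prop :=
  ∀ u, IsLog F u → ∃ P : Polynomial ℂ, (∀ n, Gauss (P.coeff n)) ∧ u = P.eval (F.p : ℂ)

end Pool.Agent.Helper56.NL
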