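import Pool.Agent.Helper56.NL.Ext

/-! Statement of the package NEAR. -/

set_option autoImplicit false

namespace Pool.Agent.Helper56.NL

open Pool.Agent.Helper35.EM Pool.Agent.Helper56.SA Pool.Agent.Helper56.EM Module Submodule Set

/-- Package NEAR: a stage in which the values at finitely many given algebraic numbers are close to the values
of the exponential function. -/
def S_NEAR : Prop := ∀ (D : ℕ) (P0 : Submodule ℚ (ℂ × ℂ)), Bs D Real.pi P0 →
  ∀ (ε : ℝ), 0 < ε → ∀ (r : ℕ) (α : Fin r → ℂ), (∀ j, α j ∈ M.closure ∅) →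
    ∃ (t : ℕ → ℝ) (N1 : ℕ) (P1 : Submodule ℚ (ℂ × ℂ)), FreeR (fun n => (t n : ℂ)) ∧ t 0 = Real.pi ∧
      ExtI (fun n => (t n : ℂ)) 1 P0 P0 P1 N1 ∧
        ∀ j, ∃ z, (α j, z) ∈ P1 ∧ ‖Complex.exp z - Complex.exp (α j)‖ < ε

end Pool.Agent.Helper56.NL
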