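import Pool.Agent.Helper56.NL.Fin
import Pool.Agent.Helper28.NL.DROP
import Pool.Agent.Helper28.NL.SCH
import Pool.Agent.Helper18.NL.Rank
import Pool.Agent.Helper18.NL.Four
import Pool.Agent.Helper66.NL.LW
import Pool.Agent.Helper82.NL.PI
import Pool.Agent.Helper58.NL.Base
import Pool.Agent.Helper76.NL.DEG
import Pool.Agent.Helper83.NL.Near

/-! The models. -/

set_option autoImplicit false

namespace Pool.Agent.Helper56.NL

open Pool.Agent.Helper35.EM Pool.Agent.Helper56.SA Pool.Agent.Helper56.EM Module Submodule Set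
  ComplexConjugate

theorem models2 {D : ℕ} (hD : 3 ≤ D) {ε : ℝ} (hε : 0 < ε) {r m : ℕ} (α : Fin r → ℂ)
    (hα : ∀ j, IsAlgebraic ℚ (α j)) (w : Fin m → ℂ)
    (hw : ∀ j, IsAlgebraic ℚ (Complex.exp (w j))) :
    ∃ F : ExpField, F.p = Real.pi ∧ LindemannWeierstrass F ∧ IndependentInDegree F D ∧
      StrongFourExponentials F ∧ StructuralRank F (1 - 1 / D) ∧ SchanuelModuloLogs F ∧
        AllLogsInPi F ∧ (∀ j, ‖F.E (α j) - Complex.exp (α j)‖ < ε) ∧
          ∀ j, ∃ u ∈ F.K, F.E u = Complex.exp (w j) ∧ ‖u - w j‖ < ε := by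
  obtain ⟨η, hη, hb⟩ := Pool.Agent.Helper58.NL.base D (by omega) ε hε m w
    (fun j => mem_cl_empty.2 (hw j))
  have hpt := Pool.Agent.Helper82.NL.pi_not
  obtain ⟨P0, hB, hnear⟩ := hb Real.pi (by simpa using hη) hpt
  obtain ⟨t, N1, P1, ht, h0, hE1, hα'⟩ := Pool.Agent.Helper83.NL.near D P0 hB ε hε r α
    (fun j => mem_cl_empty.2 (hα j))
  have hI1 : (fun n => (t n : ℂ)) '' Iio 1 = {(Real.pi : ℂ)} := by
    ext x
    constructor
    · rintro ⟨n, hn, rfl⟩
      have : n = 0 := by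
        have : n < 1 := hn
        omega
      subst this
      show (t 0 : ℂ) = _
      rw [h0]
    · rintro rfl
      exact ⟨0, Nat.zero_lt_one, by simp only [h0]⟩
  obtain ⟨E, lam, hE, hsurj, hker, hP, hrk, hconj⟩ := ext _ ht 1 P0 P1 N1 hE1.leN hE1.le hE1.st
    hE1.cs hE1.ineq _ (hE1.le hB.kap)
  rw [hI1] at hrk
  have hreal : ∀ y ∈ range (fun n => (t n : ℂ)), conj y = y := by
    rintro _ ⟨n, rfl⟩; exact Complex.conj_ofReal _
  obtain ⟨F, hp, hF, hLW, hdeg, hfour, hrank, hsch, hall⟩ := field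
    Pool.Agent.Helper28.NL.sch Pool.Agent.Helper66.NL.lw
    (Pool.Agent.Helper18.NL.rank Pool.Agent.Helper28.NL.drop) Pool.Agent.Helper18.NL.four
    Pool.Agent.Helper76.NL.deg hD Real.pi_pos hpt hB
    (fun z hz => cl_idem hz) (fun z hz => mem_cl.1 (cl_empty_le hz))
    (fun x hx => mem_cl.1 (Pool.Agent.Helper35.EM.conj_mem hreal (mem_cl.2 hx)))
    (mem_cl.1 (cl_self ⟨0, by simp only [h0]⟩)) E lam hE hsurj hker hE1.le hP hrk hconj
  refine ⟨F, hp, hLW, hdeg, hfour, hrank, hsch, hall, fun j => ?_, fun j => ?_⟩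
  · obtain ⟨z, hz1, hz2⟩ := hα' j
    have := (hF _ hz1).2
    rw [this]
    exact hz2
  · obtain ⟨x, hx, hx2⟩ := hnear j
    have := hF _ (hE1.le hx)
    exact ⟨x, this.1, this.2, hx2⟩

end Pool.Agent.Helper56.NL
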