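import Pool.Agent.Helper56.NL.Def
import Pool.Agent.Helper56.SA.Rk
import Pool.Agent.Helper35.EM.ConjModel

/-! Statements of the packages. -/

set_option autoImplicit false

namespace Pool.Agent.Helper56.NL

open Pool.Agent.Helper35.EM Pool.Agent.Helper56.SA Pool.Agent.Helper56.EM Module Submodule Set
  ComplexConjugate

/-- the exponents -/
def g (D : ℕ) : ℕ → ℕ
  | 0 => 1
  | n + 1 => g D n * (D + 1) ^ (n + 1)

/-- Package DEG: linearly independent combinations of the powers `p ^ g n` satisfy no relation of degree at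
most `D`. -/
def S_DEG : Prop := ∀ (D : ℕ) (p : ℂ), p ∉ M.closure ∅ → ∀ (n : ℕ) (u : Fin n → ℂ),
  (∀ i, u i ∈ span kk (range fun k => p ^ g D k)) → LinearIndependent kk u →
    ∀ f : MvPolynomial (Fin n) kk, f ≠ 0 → f.totalDegree ≤ D → MvPolynomial.aeval u f ≠ 0

/-- Package DIV: order of vanishing of a determinant. -/
def S_DIV : Prop := ∀ (F : Type) [Field F] (r : ℕ) (B : Matrix (Fin r) (Fin r) (Polynomial F)) (c : F),
  (Polynomial.X - Polynomial.C c) ^ (r - (B.map (Polynomial.eval c)).rank) ∣ B.det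

/-- Package DROP: the drop of the rank under the substitution `x = y ^ b`. `s` is a set of numbers, `y` is
transcendental over `s`, `x` is transcendental over `s, y`; the matrix is `C + y M + Σ_i Q i x ^ i`. -/
def S_DROP : Prop := ∀ (s : Set ℂ) (y x : ℂ), y ∉ M.closure s → x ∉ M.closure (insert y s) →
  ∀ (d l m b : ℕ) (C M₁ : Matrix (Fin d) (Fin l) ℂ) (Q : Fin m → Matrix (Fin d) (Fin l) ℂ)
    (e : Fin m → ℕ), (∀ i j, C i j ∈ M.closure s) → (∀ i j, M₁ i j ∈ M.closure s) →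
    (∀ k i j, Q k i j ∈ M.closure s) →
    b * (C + y • M₁ + ∑ k, x ^ e k • Q k).rank ≤
      b * (C + y • M₁ + ∑ k, (y ^ b) ^ e k • Q k).rank + (C + y • M₁ + ∑ k, x ^ e k • Q k).rank

/-- Package RANK: the rank inequality for the space spanned by `1` and the powers `p ^ g n`
(from DROP). -/
def S_RANK : Prop := ∀ (D : ℕ), 1 ≤ D → ∀ p : ℂ, p ∉ M.closure ∅ → ∀ (d l : ℕ)
  (A : Matrix (Fin d) (Fin l) ℂ) (φ : ℂ →ₗ[kk] kk),
  (∀ i j, A i j ∈ span kk (insert 1 (range fun k => p ^ g D k))) →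
    D * (A.map fun z => (φ z : ℂ)).rank ≤ D * A.rank + (A.map fun z => (φ z : ℂ)).rank

/-- a stage, possibly of infinite dimension -/
structure SI (P : Submodule ℚ (ℂ × ℂ)) (F : Set ℂ) : Prop where
  fst_mem : ∀ p ∈ P, p.1 ∈ M.closure F
  exp_mem : ∀ p ∈ P, Complex.exp p.2 ∈ M.closure F
  inj1 : ∀ p ∈ P, p.1 = 0 → p = 0
  inj2 : ∀ p ∈ P, p.2 = 0 → p = 0

/-- the rank inequality modulo `P0` and `F0` -/
def IneqR (F0 : Set ℂ) (P0 P : Submodule ℚ (ℂ × ℂ)) : Prop := ∀ V ≤ P, FiniteDimensional ℚ V →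
  (finrank ℚ V : ℕ∞) + M.eRk F0 ≤
    M.eRk (F0 ∪ co V) + (finrank ℚ (V ⊓ P0 : Submodule ℚ (ℂ × ℂ)) : ℕ∞)

/-- Package EXT: the extension theorem for stages of infinite dimension (adaptation of
`EM.step`, `forthG`, `backG`, `forthC`, `backC`, `bothC`, `chainC`, `extensionC`). -/
def S_EXT : Prop := ∀ (t : ℕ → ℂ), FreeR t → ∀ (N0 : ℕ) (P0 P1 : Submodule ℚ (ℂ × ℂ)) (N1 : ℕ),
  N0 ≤ N1 → P0 ≤ P1 → SI P1 (t '' Iio N1) → CS P1 → IneqR (t '' Iio N0) P0 P1 → ∀ τ : ℂ,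
  (τ, 2 * Real.pi * Complex.I) ∈ P1 →
    ∃ (E : clF (range t) → clF (range t)) (lam : clF (range t) →ₗ[ℚ] ℂ),
      (∀ x, (E x : ℂ) = Complex.exp (lam x)) ∧
      (∀ y, y ≠ 0 → ∃ x, E x = y) ∧
      (∀ x, E x = 1 ↔ ∃ n : ℤ, (x : ℂ) = n * τ) ∧
      (∀ p ∈ P1, ∃ x : clF (range t), (x : ℂ) = p.1 ∧ lam x = p.2) ∧
      (∀ V : Submodule ℚ (clF (range t)), FiniteDimensional ℚ V →
        (finrank ℚ V : ℕ∞) + M.eRk (t '' Iio N0) ≤ M.eRk (t '' Iio N0 ∪ co (V.map (gr lam))) +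
          (finrank ℚ (V.map (gr lam) ⊓ P0 : Submodule ℚ (ℂ × ℂ)) : ℕ∞)) ∧
      (∀ x y : clF (range t), (y : ℂ) = conj (x : ℂ) → lam y = conj (lam x))

/-- the pairs `(x, w)` where `w` runs through all complex logarithms of algebraic numbers and `x` is
their new value -/
structure Bs (D : ℕ) (p : ℝ) (P0 : Submodule ℚ (ℂ × ℂ)) : Prop where
  cs : CS P0
  kap : (2 * Complex.I * (p : ℂ), 2 * (Real.pi : ℂ) * Complex.I) ∈ P0
  inj1 : ∀ q ∈ P0, q.1 = 0 → q = 0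
  inj2 : ∀ q ∈ P0, q.2 = 0 → q = 0
  alg : ∀ q ∈ P0, Complex.exp q.2 ∈ M.closure ∅
  all : ∀ w : ℂ, Complex.exp w ∈ M.closure ∅ → ∃ x, (x, w) ∈ P0
  ind : ∀ (n : ℕ) (u : Fin n → ℂ), (∀ i, ∃ w, (u i, w) ∈ P0) → LinearIndependent ℚ u →
    LinearIndependent kk u
  form : ∀ q ∈ P0, q.1 ∈ span kk (range fun k => (p : ℂ) ^ g D k)
  poly : ∀ q ∈ P0, ∃ P : Polynomial ℂ, (∀ n, Gauss (P.coeff n)) ∧ q.1 = P.eval (p : ℂ)

/-- Package BASE: existence of the pairs, with `ν` given logarithms of algebraic numbers approximated. -/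
def S_BASE : Prop := ∀ (D : ℕ), 1 ≤ D → ∀ (ε : ℝ), 0 < ε → ∀ (m : ℕ) (w : Fin m → ℂ),
  (∀ j, Complex.exp (w j) ∈ M.closure ∅) → ∃ η : ℝ, 0 < η ∧ ∀ p : ℝ, |p - Real.pi| < η →
    (p : ℂ) ∉ M.closure ∅ → ∃ P0 : Submodule ℚ (ℂ × ℂ), Bs D p P0 ∧
      ∀ j, ∃ x, (x, w j) ∈ P0 ∧ ‖x - w j‖ < ε

/-- Package SCH: Schanuel modulo logarithms from the rank inequality. -/
def S_SCH : Prop := ∀ (K : IntermediateField ℚ ℂ) (lam : K →ₗ[ℚ] ℂ) (D : ℕ) (p : ℝ)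
  (P0 : Submodule ℚ (ℂ × ℂ)), (p : ℂ) ∉ M.closure ∅ → Bs D p P0 →
  (∀ q ∈ P0, ∃ x : K, (x : ℂ) = q.1 ∧ lam x = q.2) →
  (∀ V : Submodule ℚ K, FiniteDimensional ℚ V →
    (finrank ℚ V : ℕ∞) + M.eRk {(p : ℂ)} ≤ M.eRk ({(p : ℂ)} ∪ co (V.map (gr lam))) +
      (finrank ℚ (V.map (gr lam) ⊓ P0 : Submodule ℚ (ℂ × ℂ)) : ℕ∞)) →
  ∀ (n : ℕ) (z : Fin n → K),
    (∀ q : Fin n → ℚ, Complex.exp (lam (∑ i, q i • z i)) ∈ M.closure ∅ → q = 0) →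
      ∃ f : Fin n → ℂ, (∀ i, f i ∈ range (fun j => (z j : ℂ)) ∪ range fun j => Complex.exp (lam (z j))) ∧
        AlgebraicIndependent (clF {(p : ℂ)}) f

/-- Package LW -/
def S_LW : Prop := ∀ (K : IntermediateField ℚ ℂ) (lam : K →ₗ[ℚ] ℂ) (D : ℕ) (p : ℝ)
  (P0 : Submodule ℚ (ℂ × ℂ)), (p : ℂ) ∉ M.closure ∅ → Bs D p P0 →
  (∀ q ∈ P0, ∃ x : K, (x : ℂ) = q.1 ∧ lam x = q.2) →
  (∀ V : Submodule ℚ K, FiniteDimensional ℚ V →
    (finrank ℚ V : ℕ∞) + M.eRk {(p : ℂ)} ≤ M.eRk ({(p : ℂ)} ∪ co (V.map (gr lam))) +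
      (finrank ℚ (V.map (gr lam) ⊓ P0 : Submodule ℚ (ℂ × ℂ)) : ℕ∞)) →
  ∀ (n : ℕ) (α : Fin n → K), (∀ i, (α i : ℂ) ∈ M.closure ∅) → LinearIndependent ℚ α →
    AlgebraicIndependent (clF {(p : ℂ)}) fun i => Complex.exp (lam (α i))

/-- Package FOUR: from RANK -/
def S_FOUR : Prop := ∀ (W : Submodule kk ℂ) (D : ℕ), 3 ≤ D →
  (∀ (d l : ℕ) (A : Matrix (Fin d) (Fin l) ℂ) (φ : ℂ →ₗ[kk] kk), (∀ i j, A i j ∈ W) →
    D * (A.map fun z => (φ z : ℂ)).rank ≤ D * A.rank + (A.map fun z => (φ z : ℂ)).rank) →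
  ∀ x y : Fin 2 → ℂ, LinearIndependent kk x → LinearIndependent kk y → ∃ i j, x i * y j ∉ W

end Pool.Agent.Helper56.NL
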