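import Pool.Agent.Helper56.NL.Def
import Pool.Agent.Helper56.SA.Alg

/-! No two logarithms are algebraically independent; the complex numbers. -/

set_option autoImplicit false

namespace Pool.Agent.Helper56.NL

open Pool.Agent.Helper35.EM Pool.Agent.Helper56.EM Set

theorem gauss_alg {z : ℂ} (h : Gauss z) : z ∈ M.closure ∅ := by
  obtain ⟨a, b, rfl⟩ := h
  exact cl_add (cl_ratCast _ a) (cl_mul (cl_ratCast _ b) (cl_I _))

theorem not_indep {F : ExpField} (h : AllLogsInPi F) {u v : ℂ} (hu : IsLog F u) (hv : IsLog F v) :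
    ¬ AlgebraicIndependent ℚ ![u, v] := by
  have hmem : ∀ {x : ℂ}, IsLog F x → x ∈ M.closure {(F.p : ℂ)} := by
    intro x hx
    obtain ⟨P, hP, rfl⟩ := h x hx
    rw [Polynomial.eval_eq_sum, Polynomial.sum]
    refine Finset.sum_induction _ (fun z => z ∈ M.closure {(F.p : ℂ)}) (fun _ _ => cl_add)
      (cl_zero _) fun n _ => ?_
    exact cl_mul (cl_empty_le (gauss_alg (hP n))) (cl_pow n (cl_self rfl))
  intro hi
  have h1 : M.Indep (range ![u, v]) := by
    rw [AlgebraicIndependent.matroid_indep_iff]
    exact AlgebraicIndependent.to_subtype_range hi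
  have hne : u ≠ v := by
    intro h0
    have := hi.injective (a₁ := 0) (a₂ := 1) (by simpa using h0)
    simp at this
  have h2 : (range ![u, v]).encard = 2 := by
    rw [Matrix.range_cons, Matrix.range_cons, Matrix.range_empty, union_empty,
      singleton_union, encard_pair hne]
  have h3 : M.eRk (range ![u, v]) = 2 := by rw [h1.eRk_eq_encard, h2]
  have h4 : M.eRk (range ![u, v]) ≤ 1 := by
    have h5 : range ![u, v] ⊆ M.closure {(F.p : ℂ)} := by
      rintro _ ⟨i, rfl⟩
      fin_cases i
      · exact hmem hu
      · exact hmem hv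
    refine (M.eRk_mono h5).trans ?_
    rw [M.eRk_closure_eq]
    exact (M.eRk_le_encard _).trans (by rw [encard_singleton])
  rw [h3] at h4
  exact absurd h4 (by norm_num)

theorem complex_field : ∃ F : ExpField, F.K = ⊤ ∧ F.E = Complex.exp ∧ F.p = Real.pi :=
  ⟨{ K := ⊤
     E := Complex.exp
     p := Real.pi
     closed := fun _ _ => trivial
     conj_mem := fun _ _ => trivial
     E_mem := fun _ _ => trivial
     E_add := fun x _ y _ => Complex.exp_add x y
     E_surj := fun y _ hy => ⟨Complex.log y, trivial, Complex.exp_log hy⟩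
     E_conj := fun x _ => Complex.exp_conj x
     ker := fun x _ => by
       rw [Complex.exp_eq_one_iff]
       refine exists_congr fun n => ?_
       rw [show (2 * (Real.pi : ℂ) * Complex.I * n) = n * (2 * Real.pi * Complex.I) by ring]
     p_mem := trivial
     p_pos := Real.pi_pos }, rfl, rfl, rfl⟩

end Pool.Agent.Helper56.NL
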